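import Mathlib

/-!
MP_845814_an, CircularSets, module (5): caps. If `f, g` are continuous on the closed unit ball of a complex inner product space of
dimension at least two and holomorphic inside, and `|f| = |g|` on the whole unit sphere, then `f = c g` on the closed ball.
-/

set_option autoImplicit false

noncomputable section

namespace Pool.Agent.H81.CS

open Metric Set

variable {E : Type*} [NormedAddCommGroup E] [InnerProductSpace ℂ E]

/-- the slice of the open unit ball -/
theorem isBounded_slice (z v : E) (hv : v ≠ 0) : Bornology.IsBounded {l : ℂ | z + l • v ∈ ball (0 : E) 1} := by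
  rw [isBounded_iff_forall_norm_le]
  refine ⟨(1 + ‖z‖) / ‖v‖, ?_⟩
  intro l hl
  have hl : ‖z + l • v‖ < 1 := by simpa using hl
  have hv0 : 0 < ‖v‖ := norm_pos_iff.2 hv
  rw [le_div_iff₀ hv0, ← norm_smul]
  have : ‖l • v‖ ≤ ‖z + l • v‖ + ‖z‖ := by
    calc ‖l • v‖ = ‖(z + l • v) - z‖ := by congr 1; abel
      _ ≤ ‖z + l • v‖ + ‖z‖ := norm_sub_le _ _
  linarith

theorem continuous_line (z v : E) : Continuous fun l : ℂ => z + l • v := by fun_prop

theorem isOpen_slice (z v : E) : IsOpen {l : ℂ | z + l • v ∈ ball (0 : E) 1} :=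
  isOpen_ball.preimage (continuous_line z v)

theorem closure_slice (z v : E) : closure {l : ℂ | z + l • v ∈ ball (0 : E) 1} ⊆
    {l : ℂ | z + l • v ∈ closedBall (0 : E) 1} := by
  refine closure_minimal ?_ ?_
  · intro l hl
    exact ball_subset_closedBall hl
  · exact isClosed_closedBall.preimage (continuous_line z v)

theorem frontier_slice (z v : E) : frontier {l : ℂ | z + l • v ∈ ball (0 : E) 1} ⊆
    {l : ℂ | z + l • v ∈ sphere (0 : E) 1} := by
  intro l hl
  have h1 := closure_slice z v (frontier_subset_closure hl)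
  have h2 : l ∉ {l : ℂ | z + l • v ∈ ball (0 : E) 1} := by
    have := (isOpen_slice z v).frontier_eq ▸ hl
    exact this.2
  simp only [mem_ofPred_eq, mem_ball, mem_closedBall, mem_sphere, not_lt] at h1 h2 ⊢
  exact le_antisymm h1 h2

/-- maximum principle in a slice -/
theorem slice_le {f g : E → ℂ} (z v : E) (hv : v ≠ 0) (hz : z ∈ ball (0 : E) 1)
    (hf : ContinuousOn f (closedBall (0 : E) 1)) (hfd : DifferentiableOn ℂ f (ball (0 : E) 1))
    (hg : ContinuousOn g (closedBall (0 : E) 1)) (hgd : DifferentiableOn ℂ g (ball (0 : E) 1))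
    (h0 : ∀ l : ℂ, z + l • v ∈ closedBall (0 : E) 1 → g (z + l • v) ≠ 0)
    (he : ∀ x ∈ sphere (0 : E) 1, ‖f x‖ = ‖g x‖) : ‖f z‖ ≤ ‖g z‖ := by
  set U : Set ℂ := {l : ℂ | z + l • v ∈ ball (0 : E) 1} with hU
  have hline : DifferentiableOn ℂ (fun l : ℂ => z + l • v) U := by fun_prop
  have hd : DiffContOnCl ℂ (fun l : ℂ => f (z + l • v) / g (z + l • v)) U := by
    constructor
    · refine DifferentiableOn.div ?_ ?_ ?_
      · exact hfd.comp hline (fun l hl => hl)
      · exact hgd.comp hline (fun l hl => hl)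
      · intro l hl
        exact h0 l (ball_subset_closedBall hl)
    · refine ContinuousOn.div ?_ ?_ ?_
      · exact hf.comp (continuous_line z v).continuousOn (fun l hl => closure_slice z v hl)
      · exact hg.comp (continuous_line z v).continuousOn (fun l hl => closure_slice z v hl)
      · intro l hl
        exact h0 l (closure_slice z v hl)
  have h := Complex.norm_le_of_forall_mem_frontier_norm_le (isBounded_slice z v hv) hd (C := 1) ?_
    (z := 0) (subset_closure (by simpa using hz))
  · simp only [zero_smul, add_zero, norm_div] at h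
    have hg0 : 0 < ‖g z‖ := norm_pos_iff.2 (by simpa using h0 0 (by simpa using (mem_ball_zero_iff.1 hz).le))
    rwa [div_le_one hg0] at h
  · intro l hl
    have h1 := frontier_slice z v hl
    have h2 := h0 l (sphere_subset_closedBall h1)
    rw [norm_div, he _ h1, div_self (norm_ne_zero_iff.2 h2)]

/-- identity theorem in the ball: equality on a nonempty open set -/
theorem eqOn_ball {f g : E → ℂ} (hfd : DifferentiableOn ℂ f (ball (0 : E) 1))
    (hgd : DifferentiableOn ℂ g (ball (0 : E) 1)) {C : Set E} (hC : IsOpen C) {a : E} (haC : a ∈ C)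
    (ha : a ∈ ball (0 : E) 1) (h : EqOn f g (C ∩ ball (0 : E) 1)) : EqOn f g (ball (0 : E) 1) := by
  intro w hw
  set U : Set ℂ := {l : ℂ | a + l • (w - a) ∈ ball (0 : E) 1} with hU
  have hUo : IsOpen U := isOpen_slice a (w - a)
  have hUc : IsPreconnected U := by
    apply Convex.isPreconnected
    intro x hx y hy s t hs ht hst
    have e : a + ((s • x + t • y : ℂ)) • (w - a) = s • (a + x • (w - a)) + t • (a + y • (w - a)) := by
      have : a = (s + t : ℝ) • a := by rw [hst, one_smul]
      nth_rw 1 [this]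
      rw [smul_add, smul_add, add_smul, add_smul, smul_assoc, smul_assoc]
      abel
    show a + ((s • x + t • y : ℂ)) • (w - a) ∈ ball (0 : E) 1
    rw [e]
    exact (convex_ball (0 : E) 1) hx hy hs ht hst
  have hline : DifferentiableOn ℂ (fun l : ℂ => a + l • (w - a)) U := by fun_prop
  have hfa : AnalyticOnNhd ℂ (fun l : ℂ => f (a + l • (w - a))) U :=
    (hfd.comp hline (fun l hl => hl)).analyticOnNhd hUo
  have hga : AnalyticOnNhd ℂ (fun l : ℂ => g (a + l • (w - a))) U :=
    (hgd.comp hline (fun l hl => hl)).analyticOnNhd hUo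
  have h0 : (0 : ℂ) ∈ U := by simpa [hU] using ha
  have h1 : (1 : ℂ) ∈ U := by simpa [hU] using hw
  have hev : (fun l : ℂ => f (a + l • (w - a))) =ᶠ[nhds 0] fun l : ℂ => g (a + l • (w - a)) := by
    have hV : {l : ℂ | a + l • (w - a) ∈ C ∩ ball (0 : E) 1} ∈ nhds (0 : ℂ) := by
      apply ((hC.inter isOpen_ball).preimage (continuous_line a (w - a))).mem_nhds
      simpa using ⟨haC, by simpa using ha⟩
    filter_upwards [hV] with l hl
    exact h hl
  have key := hfa.eqOn_of_preconnected_of_eventuallyEq hga hUc h0 hev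
  have := key h1
  simpa using this

/-- caps: `|f| = |g|` on the sphere gives `f = c g` -/
theorem cap (h2 : ∀ p : E, ∃ v : E, v ≠ 0 ∧ inner ℂ p v = 0) [Nontrivial E] {f g : E → ℂ}
    (hf : ContinuousOn f (closedBall (0 : E) 1)) (hfd : DifferentiableOn ℂ f (ball (0 : E) 1))
    (hg : ContinuousOn g (closedBall (0 : E) 1)) (hgd : DifferentiableOn ℂ g (ball (0 : E) 1))
    (he : ∀ x ∈ sphere (0 : E) 1, ‖f x‖ = ‖g x‖) : ∃ c : ℂ, ∀ z ∈ closedBall (0 : E) 1, f z = c * g z := by
  by_cases h0 : ∀ x ∈ sphere (0 : E) 1, f x = 0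
  · refine ⟨0, ?_⟩
    intro z hz
    have hd : DiffContOnCl ℂ f (ball (0 : E) 1) := by
      refine ⟨hfd, ?_⟩
      rw [closure_ball (0 : E) one_ne_zero]
      exact hf
    have h := Complex.norm_le_of_forall_mem_frontier_norm_le isBounded_ball hd (C := 0) ?_
      (z := z) (by rw [closure_ball (0 : E) one_ne_zero]; exact hz)
    · simpa using h
    · intro x hx
      rw [frontier_ball (0 : E) one_ne_zero] at hx
      rw [h0 x hx, norm_zero]
  · push Not at h0
    obtain ⟨p, hp, hp0⟩ := h0
    have hpc : p ∈ closedBall (0 : E) 1 := sphere_subset_closedBall hp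
    have hpn : ‖p‖ = 1 := by simpa using hp
    have hgp : g p ≠ 0 := by
      rw [← norm_ne_zero_iff, ← he p hp]
      exact norm_ne_zero_iff.2 hp0
    obtain ⟨δ, hδ, hne⟩ : ∃ δ > 0, ∀ z ∈ closedBall (0 : E) 1, dist z p < δ → f z ≠ 0 ∧ g z ≠ 0 := by
      have h1 : ∀ᶠ z in nhdsWithin p (closedBall (0 : E) 1), f z ≠ 0 ∧ g z ≠ 0 :=
        ((hf p hpc).eventually_ne hp0).and ((hg p hpc).eventually_ne hgp)
      rw [Metric.nhdsWithin_basis_ball.eventually_iff] at h1
      obtain ⟨δ, hδ, h⟩ := h1
      exact ⟨δ, hδ, fun z hz hd => h ⟨hd, hz⟩⟩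
    obtain ⟨v, hv0, hv⟩ := h2 p
    set ε : ℝ := δ ^ 2 / 4 with hε
    have hεp : 0 < ε := by positivity
    have hnear : ∀ z ∈ closedBall (0 : E) 1, 1 - ε < (inner ℂ p z).re → dist z p < δ := by
      intro z hz hr
      have hz1 : ‖z‖ ≤ 1 := by simpa using hz
      have h := @norm_sub_sq ℂ E _ _ _ z p
      have e1 : RCLike.re (inner ℂ z p) = (inner ℂ p z).re := inner_re_symm (𝕜 := ℂ) z p
      rw [e1, hpn] at h
      have h3 : ‖z - p‖ ^ 2 < δ ^ 2 := by
        have : ‖z‖ ^ 2 ≤ 1 := by nlinarith [norm_nonneg z]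
        nlinarith
      rw [dist_eq_norm]
      exact lt_of_pow_lt_pow_left₀ 2 hδ.le h3
    have hsl : ∀ (z : E) (l : ℂ), inner ℂ p (z + l • v) = inner ℂ p z := by
      intro z l
      rw [inner_add_right, inner_smul_right, hv, mul_zero, add_zero]
    set C : Set E := {z : E | 1 - ε < (inner ℂ p z).re} with hC
    have hCo : IsOpen C := by
      apply isOpen_lt continuous_const
      fun_prop
    have heq : ∀ z ∈ C ∩ ball (0 : E) 1, ‖f z‖ = ‖g z‖ := by
      intro z hz
      apply le_antisymm
      · refine slice_le z v hv0 hz.2 hf hfd hg hgd ?_ he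
        intro l hl
        exact (hne _ hl (hnear _ hl (by rw [hsl]; exact hz.1))).2
      · refine slice_le z v hv0 hz.2 hg hgd hf hfd ?_ (fun x hx => (he x hx).symm)
        intro l hl
        exact (hne _ hl (hnear _ hl (by rw [hsl]; exact hz.1))).1
    -- a point of the cap
    obtain ⟨a, haC, hab⟩ : ∃ a, a ∈ C ∧ a ∈ ball (0 : E) 1 := by
      set r : ℝ := max 0 (1 - ε / 2) with hr
      have hr1 : r < 1 := by
        apply max_lt one_pos
        linarith
      have hr0 : 0 ≤ r := le_max_left _ _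
      refine ⟨(r : ℂ) • p, ?_, ?_⟩
      · have e1 : (inner ℂ p ((r : ℂ) • p)).re = r := by
          rw [inner_smul_right, inner_self_eq_norm_sq_to_K, hpn]
          simp
        show 1 - ε < (inner ℂ p ((r : ℂ) • p)).re
        rw [e1]
        have := le_max_right 0 (1 - ε / 2)
        linarith
      · rw [mem_ball_zero_iff, norm_smul, hpn, mul_one, Complex.norm_real, Real.norm_eq_abs, abs_of_nonneg hr0]
        exact hr1
    set q : E → ℂ := fun z => f z / g z with hq
    have hgC : ∀ z ∈ C ∩ ball (0 : E) 1, g z ≠ 0 := fun z hz =>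
      (hne _ (ball_subset_closedBall hz.2) (hnear _ (ball_subset_closedBall hz.2) hz.1)).2
    have hqd : DifferentiableOn ℂ q (C ∩ ball (0 : E) 1) := by
      have h := (hfd.mono (inter_subset_right (s := C))).mul ((hgd.mono (inter_subset_right (s := C))).inv hgC)
      refine h.congr ?_
      intro z hz
      simp [hq, div_eq_mul_inv]
    have hqn : ∀ z ∈ C ∩ ball (0 : E) 1, ‖q z‖ = 1 := by
      intro z hz
      simp only [hq, norm_div]
      rw [heq z hz, div_self (norm_ne_zero_iff.2 (hgC z hz))]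
    have hCc : IsPreconnected (C ∩ ball (0 : E) 1) := by
      apply Convex.isPreconnected
      refine Convex.inter ?_ (convex_ball _ _)
      intro x hx y hy s t hs ht hst
      have hx : 1 - ε < (inner ℂ p x).re := hx
      have hy : 1 - ε < (inner ℂ p y).re := hy
      show 1 - ε < (inner ℂ p (s • x + t • y)).re
      have e : (inner ℂ p (s • x + t • y)).re = s * (inner ℂ p x).re + t * (inner ℂ p y).re := by
        rw [inner_add_right, RCLike.real_smul_eq_coe_smul (K := ℂ) s x, RCLike.real_smul_eq_coe_smul (K := ℂ) t y,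
          inner_smul_right, inner_smul_right]
        simp
      rw [e]
      rcases eq_or_lt_of_le hs with hs0 | hs0
      · have ht1 : t = 1 := by linarith
        rw [← hs0, ht1]
        linarith
      · have h1 : s * (1 - ε) < s * (inner ℂ p x).re := by nlinarith
        have h2 : t * (1 - ε) ≤ t * (inner ℂ p y).re := by nlinarith
        have h3 : s * (1 - ε) + t * (1 - ε) = 1 - ε := by rw [← add_mul, hst, one_mul]
        linarith
    have hconst := Complex.eqOn_of_isPreconnected_of_isMaxOn_norm hCc (hCo.inter isOpen_ball) hqd ⟨haC, hab⟩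
      (by
        intro z hz
        show ‖q z‖ ≤ ‖q a‖
        rw [hqn z hz, hqn a ⟨haC, hab⟩])
    refine ⟨q a, ?_⟩
    have hball : EqOn f (fun z => q a * g z) (ball (0 : E) 1) := by
      refine eqOn_ball hfd (hgd.const_mul _) hCo haC hab ?_
      intro z hz
      have h1 : q z = q a := hconst hz
      show f z = q a * g z
      rw [← h1]
      simp only [hq]
      rw [div_mul_cancel₀ _ (hgC z hz)]
    have hcl : EqOn f (fun z => q a * g z) (closedBall (0 : E) 1) := by
      refine hball.of_subset_closure hf (hg.const_mul _ |>.congr (fun _ _ => rfl)) ball_subset_closedBall ?_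
      rw [closure_ball (0 : E) one_ne_zero]
    exact fun z hz => hcl hz

/-- in dimension at least two every vector has a nonzero orthogonal vector -/
theorem exists_orth {n : ℕ} (hn : 2 ≤ n) (p : EuclideanSpace ℂ (Fin n)) :
    ∃ v : EuclideanSpace ℂ (Fin n), v ≠ 0 ∧ inner ℂ p v = 0 := by
  have h1 : Module.finrank ℂ (ℂ ∙ p) ≤ 1 := by
    by_cases hp : p = 0
    · rw [hp, Submodule.span_zero_singleton, finrank_bot]
      exact Nat.zero_le _
    · exact (finrank_span_singleton hp).le
  have h2 := (ℂ ∙ p).finrank_add_finrank_orthogonal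
  rw [finrank_euclideanSpace_fin] at h2
  have h3 : (ℂ ∙ p)ᗮ ≠ ⊥ := by
    intro h
    rw [h, finrank_bot] at h2
    omega
  obtain ⟨v, hv, hv0⟩ := Submodule.exists_mem_ne_zero_of_ne_bot h3
  exact ⟨v, hv0, (Submodule.mem_orthogonal_singleton_iff_inner_right.1 hv)⟩

/-- `n ≥ 2`, `f, g ∈ A(B_n)`, `|f| = |g|` on the sphere: `f = c g`. -/
theorem cap_eq {n : ℕ} (hn : 2 ≤ n) {f g : EuclideanSpace ℂ (Fin n) → ℂ}
    (hf : ContinuousOn f (closedBall (0 : EuclideanSpace ℂ (Fin n)) 1))
    (hfd : DifferentiableOn ℂ f (ball (0 : EuclideanSpace ℂ (Fin n)) 1))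
    (hg : ContinuousOn g (closedBall (0 : EuclideanSpace ℂ (Fin n)) 1))
    (hgd : DifferentiableOn ℂ g (ball (0 : EuclideanSpace ℂ (Fin n)) 1))
    (he : ∀ x ∈ sphere (0 : EuclideanSpace ℂ (Fin n)) 1, ‖f x‖ = ‖g x‖) :
    ∃ c : ℂ, ∀ z ∈ closedBall (0 : EuclideanSpace ℂ (Fin n)) 1, f z = c * g z := by
  have : Nontrivial (EuclideanSpace ℂ (Fin n)) := by
    apply Module.nontrivial_of_finrank_pos (R := ℂ)
    rw [finrank_euclideanSpace_fin]
    omega
  exact cap (exists_orth hn) hf hfd hg hgd he

end Pool.Agent.H81.CS
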