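import Pool.Agent.H74.CB.Defs

set_option autoImplicit false

/-!
MP_845814_an, circular sets, module Pol: null sets by rays, and the identity theorem.
-/

namespace Pool.Agent.H81.CS

open MeasureTheory Metric Set
open scoped ENNReal
open Pool.Agent.H74.CB (V)

theorem polar_lintegral {n : ℕ} (hn : 1 ≤ n) {G : V n → ℝ≥0∞} (hG : Measurable G) :
    ∫⁻ x, G x = ∫⁻ θ, (∫⁻ ρ in Ioi (0 : ℝ), ENNReal.ofReal (ρ ^ (Module.finrank ℝ (V n) - 1)) *
      G (ρ • (θ : V n))) ∂(volume : Measure (V n)).toSphere := by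
  have : Nontrivial (V n) :=
    Module.nontrivial_of_finrank_pos (R := ℂ) (by rw [finrank_euclideanSpace_fin]; omega)
  have h1 : ∫⁻ x, G x = ∫⁻ x : ({(0 : V n)}ᶜ : Set (V n)), G x.1
      ∂(Measure.comap Subtype.val (volume : Measure (V n))) := by
    rw [lintegral_subtype_comap (measurableSet_singleton _).compl, restrict_compl_singleton]
  have hf : Measurable (fun z : sphere (0 : V n) 1 × Ioi (0 : ℝ) => G ((z.2 : ℝ) • (z.1 : V n))) := by
    apply hG.comp
    exact (measurable_subtype_coe.comp measurable_snd).smul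
      (measurable_subtype_coe.comp measurable_fst)
  have h2 : ∫⁻ x : ({(0 : V n)}ᶜ : Set (V n)), G x.1
      ∂(Measure.comap Subtype.val (volume : Measure (V n)))
      = ∫⁻ z : sphere (0 : V n) 1 × Ioi (0 : ℝ), G ((z.2 : ℝ) • (z.1 : V n))
        ∂((volume : Measure (V n)).toSphere.prod (Measure.volumeIoiPow (Module.finrank ℝ (V n) - 1))) := by
    have h3 := ((volume : Measure (V n)).measurePreserving_homeomorphUnitSphereProd).lintegral_comp hf
    rw [← h3]
    apply lintegral_congr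
    intro x
    congr 1
    have hx : (x : V n) ≠ 0 := x.2
    have hx' : ‖(x : V n)‖ ≠ 0 := norm_ne_zero_iff.mpr hx
    rw [homeomorphUnitSphereProd_apply_snd_coe, homeomorphUnitSphereProd_apply_fst_coe, smul_smul,
      mul_inv_cancel₀ hx', one_smul]
  rw [h1, h2, lintegral_prod _ hf.aemeasurable]
  apply lintegral_congr
  intro θ
  have hg : Measurable (fun ρ : Ioi (0 : ℝ) => G ((ρ : ℝ) • (θ : V n))) :=
    hG.comp (measurable_subtype_coe.smul_const _)
  have hd : Measurable (fun r : Ioi (0 : ℝ) => ENNReal.ofReal ((r : ℝ) ^ (Module.finrank ℝ (V n) - 1))) :=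
    (measurable_subtype_coe.pow_const _).ennreal_ofReal
  unfold Measure.volumeIoiPow
  rw [lintegral_withDensity_eq_lintegral_mul _ hd hg]
  exact lintegral_subtype_comap measurableSet_Ioi
    (fun ρ : ℝ => ENNReal.ofReal (ρ ^ (Module.finrank ℝ (V n) - 1)) * G (ρ • (θ : V n)))

theorem polar_null {n : ℕ} (hn : 1 ≤ n) (Z : Set (V n)) (hZ : MeasurableSet Z) (a : V n)
    (h : ∀ v : V n, ‖v‖ = 1 → volume {t : ℝ | 0 < t ∧ a + t • v ∈ Z} = 0) :
    (volume : Measure (V n)) Z = 0 := by
  have hm : Measurable (fun x : V n => Z.indicator (fun _ => (1 : ℝ≥0∞)) (a + x)) :=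
    (measurable_const.indicator hZ).comp (measurable_const_add a)
  have h1 : (volume : Measure (V n)) Z = ∫⁻ x : V n, Z.indicator (fun _ => (1 : ℝ≥0∞)) (a + x) := by
    rw [lintegral_add_left_eq_self (fun x : V n => Z.indicator (fun _ => (1 : ℝ≥0∞)) x) a,
      lintegral_indicator hZ]
    simp
  rw [h1, polar_lintegral hn hm]
  have h2 : ∀ θ : sphere (0 : V n) 1, (∫⁻ ρ in Ioi (0 : ℝ), ENNReal.ofReal (ρ ^ (Module.finrank ℝ (V n) - 1)) *
      Z.indicator (fun _ => (1 : ℝ≥0∞)) (a + ρ • (θ : V n))) = 0 := by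
    intro θ
    have hθ : ‖(θ : V n)‖ = 1 := by simpa using θ.2
    have h3 := h θ hθ
    rw [lintegral_eq_zero_iff]
    · rw [Filter.EventuallyEq, ae_restrict_iff' measurableSet_Ioi]
      have h4 : ∀ᵐ t : ℝ, t ∉ {t : ℝ | 0 < t ∧ a + t • (θ : V n) ∈ Z} := by
        rw [ae_iff]
        simpa using h3
      filter_upwards [h4] with t ht ht0
      have h5 : a + t • (θ : V n) ∉ Z := fun h6 => ht ⟨ht0, h6⟩
      simp [indicator_of_notMem h5]
    · refine Measurable.mul ?_ ?_
      · fun_prop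
      · exact (measurable_const.indicator hZ).comp
          ((measurable_id.smul_const _).const_add a)
  simp only [h2, lintegral_zero]

theorem ident {n : ℕ} (hn : 1 ≤ n) (D : V n → ℝ) (hc : ContinuousOn D (ball (0 : V n) 1))
    (ha : ∀ a v : V n, ∀ t : ℝ, a + t • v ∈ ball (0 : V n) 1 →
      AnalyticAt ℝ (fun s : ℝ => D (a + s • v)) t)
    (hpos : (volume : Measure (V n)) {w | w ∈ ball (0 : V n) 1 ∧ D w = 0} ≠ 0) :
    ∀ w ∈ ball (0 : V n) 1, D w = 0 := by
  intro a haB
  by_contra hDa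
  apply hpos
  have hmeas : MeasurableSet {w | w ∈ ball (0 : V n) 1 ∧ D w = 0} := by
    have h1 : IsOpen (ball (0 : V n) 1 ∩ D ⁻¹' {0}ᶜ) :=
      hc.isOpen_inter_preimage isOpen_ball isOpen_compl_singleton
    have h2 : {w | w ∈ ball (0 : V n) 1 ∧ D w = 0} = ball (0 : V n) 1 \ (ball (0 : V n) 1 ∩ D ⁻¹' {0}ᶜ) := by
      ext w
      constructor
      · rintro ⟨hw, h0⟩
        exact ⟨hw, fun h => h.2 h0⟩
      · rintro ⟨hw, h0⟩
        refine ⟨hw, ?_⟩
        by_contra h
        exact h0 ⟨hw, h⟩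
    rw [h2]
    exact isOpen_ball.measurableSet.diff h1.measurableSet
  refine polar_null hn _ hmeas a ?_
  intro v _
  apply measure_null_of_locally_null
  intro t ht
  obtain ⟨_, htB, ht0⟩ := ht
  refine ⟨{t}, ?_, Real.volume_singleton⟩
  set U : Set ℝ := {s : ℝ | a + s • v ∈ ball (0 : V n) 1} with hU
  have hUc : IsPreconnected U := by
    apply Convex.isPreconnected
    intro x hx y hy s r hs hr hsr
    have e : a + (s • x + r • y : ℝ) • v = s • (a + x • v) + r • (a + y • v) := by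
      have : a = (s + r : ℝ) • a := by rw [hsr, one_smul]
      nth_rw 1 [this]
      rw [smul_add, smul_add, add_smul, add_smul, smul_assoc, smul_assoc]
      abel
    show a + (s • x + r • y : ℝ) • v ∈ ball (0 : V n) 1
    rw [e]
    exact (convex_ball (0 : V n) 1) hx hy hs hr hsr
  have hFa : AnalyticOnNhd ℝ (fun s : ℝ => D (a + s • v)) U := fun s hs => ha a v s hs
  have h0U : (0 : ℝ) ∈ U := by simpa [hU] using haB
  have hne : ∀ᶠ s in nhdsWithin t {t}ᶜ, D (a + s • v) ≠ 0 := by
    by_contra hcon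
    rw [Filter.not_eventually] at hcon
    have hfr : ∃ᶠ s in nhdsWithin t {t}ᶜ, D (a + s • v) = 0 := hcon.mono fun s hs => not_not.1 hs
    have := hFa.eqOn_zero_of_preconnected_of_frequently_eq_zero hUc htB hfr h0U
    apply hDa
    simpa using this
  rw [eventually_nhdsWithin_iff] at hne
  rw [mem_nhdsWithin_iff_eventually]
  filter_upwards [hne] with s hs hsS
  by_contra hst
  exact hs hst hsS.2.2

end Pool.Agent.H81.CS
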